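import Mathlib

set_option autoImplicit false

/-! Finite combinatorics of forbidden suborders. -/

namespace Pool.Agent.TH686.FS

/-- strict partial orders -/
structure PO {V : Type} (r : V → V → Prop) : Prop where
  irrefl : ∀ u, ¬ r u u
  trans : ∀ u v w, r u v → r v w → r u w

/-- the order N: `0 < 1 > 2 < 3` -/
def NN (i j : Fin 4) : Prop := (i = 0 ∧ j = 1) ∨ (i = 2 ∧ j = 1) ∨ (i = 2 ∧ j = 3)

instance : DecidableRel NN := fun i j => inferInstanceAs (Decidable ((i = 0 ∧ j = 1) ∨ (i = 2 ∧ j = 1) ∨ (i = 2 ∧ j = 3)))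

/-- `r` embeds in N -/
def EmbN {V : Type} (r : V → V → Prop) : Prop :=
  ∃ f : V → Fin 4, Function.Injective f ∧ ∀ u v, r u v ↔ NN (f u) (f v)

/-- `r` is a suborder of N together with an antichain -/
def Exc {V : Type} (r : V → V → Prop) : Prop :=
  ∃ S : Set V, (∀ u v, r u v → u ∈ S ∧ v ∈ S) ∧
    ∃ f : V → Fin 4, Set.InjOn f S ∧ ∀ u ∈ S, ∀ v ∈ S, r u v ↔ NN (f u) (f v)

variable {V : Type} {r : V → V → Prop}

/-- chain of three elements -/
def O1 (r : V → V → Prop) : Prop := ∃ a b c, r a b ∧ r b c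
/-- an element below three others -/
def O2 (r : V → V → Prop) : Prop := ∃ a b c d, r a b ∧ r a c ∧ r a d ∧ b ≠ c ∧ b ≠ d ∧ c ≠ d
/-- an element above three others -/
def O3 (r : V → V → Prop) : Prop := ∃ a b c d, r b a ∧ r c a ∧ r d a ∧ b ≠ c ∧ b ≠ d ∧ c ≠ d
/-- 2 + 2 -/
def O4 (r : V → V → Prop) : Prop := ∃ a b c d, r a b ∧ r c d ∧ ¬ r a d ∧ ¬ r c b
/-- two elements below two others -/
def O5 (r : V → V → Prop) : Prop :=
  ∃ a a' b b', a ≠ a' ∧ b ≠ b' ∧ r a b ∧ r a b' ∧ r a' b ∧ r a' b'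

theorem exc_mk (T : Finset (Fin 4)) (g : Fin 4 → V) (hg : ∀ i ∈ T, ∀ j ∈ T, g i = g j → i = j)
    (h : ∀ i ∈ T, ∀ j ∈ T, (r (g i) (g j) ↔ NN i j))
    (hr : ∀ u v, r u v → (∃ i ∈ T, g i = u) ∧ ∃ i ∈ T, g i = v) : Exc r := by
  classical
  have hinj : Set.InjOn g (T : Set (Fin 4)) := fun i hi j hj hij => hg i hi j hj hij
  have hl := hinj.leftInvOn_invFunOn
  refine ⟨g '' (T : Set (Fin 4)), fun u v huv => ?_, Function.invFunOn g (T : Set (Fin 4)), ?_, ?_⟩
  · obtain ⟨⟨i, hi, h1⟩, ⟨j, hj, h2⟩⟩ := hr u v huv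
    exact ⟨⟨i, hi, h1⟩, ⟨j, hj, h2⟩⟩
  · rintro _ ⟨i, hi, rfl⟩ _ ⟨j, hj, rfl⟩ hij
    rw [hl hi, hl hj] at hij
    rw [hij]
  · rintro _ ⟨i, hi, rfl⟩ _ ⟨j, hj, rfl⟩
    rw [hl hi, hl hj]
    exact h i hi j hj

theorem exc4 {a1 b a b1 : V} (n1 : a1 ≠ b) (n2 : a ≠ b) (n3 : a ≠ b1) (n4 : a1 ≠ b1)
    (n5 : a1 ≠ a) (n6 : b ≠ b1)
    (key : ∀ c d, r c d ↔ (c = a1 ∧ d = b) ∨ (c = a ∧ d = b) ∨ (c = a ∧ d = b1)) : Exc r := by
  refine exc_mk Finset.univ ![a1, b, a, b1] ?_ ?_ ?_
  · intro i _ j _ hij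
    fin_cases i <;> fin_cases j <;>
      first
        | rfl
        | exact absurd hij n1
        | exact absurd hij n2
        | exact absurd hij n3
        | exact absurd hij n4
        | exact absurd hij n5
        | exact absurd hij n6
        | exact absurd hij.symm n1
        | exact absurd hij.symm n2
        | exact absurd hij.symm n3
        | exact absurd hij.symm n4
        | exact absurd hij.symm n5
        | exact absurd hij.symm n6
  · intro i _ j _
    rw [key]
    have t : (a = a1 ↔ False) ∧ (b = a1 ↔ False) ∧ (b1 = a1 ↔ False) ∧ (a1 = a ↔ False) ∧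
        (b = a ↔ False) ∧ (b1 = a ↔ False) ∧ (a1 = b ↔ False) ∧ (a = b ↔ False) ∧
        (b1 = b ↔ False) ∧ (a1 = b1 ↔ False) ∧ (a = b1 ↔ False) ∧ (b = b1 ↔ False) := by
      refine ⟨?_, ?_, ?_, ?_, ?_, ?_, ?_, ?_, ?_, ?_, ?_, ?_⟩ <;> refine iff_of_false ?_ id <;>
        first | assumption | (apply Ne.symm; assumption)
    obtain ⟨t1, t2, t3, t4, t5, t6, t7, t8, t9, t10, t11, t12⟩ := t
    fin_cases i <;> fin_cases j <;> simp [NN, t1, t2, t3, t4, t5, t6, t7, t8, t9, t10, t11, t12]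
  · intro u v h
    rcases (key u v).1 h with ⟨rfl, rfl⟩ | ⟨rfl, rfl⟩ | ⟨rfl, rfl⟩
    · exact ⟨⟨0, Finset.mem_univ _, rfl⟩, ⟨1, Finset.mem_univ _, rfl⟩⟩
    · exact ⟨⟨2, Finset.mem_univ _, rfl⟩, ⟨1, Finset.mem_univ _, rfl⟩⟩
    · exact ⟨⟨2, Finset.mem_univ _, rfl⟩, ⟨3, Finset.mem_univ _, rfl⟩⟩

theorem exc3 {b a b1 : V} (n2 : a ≠ b) (n3 : a ≠ b1) (n6 : b ≠ b1)
    (key : ∀ c d, r c d ↔ (c = a ∧ d = b) ∨ (c = a ∧ d = b1)) : Exc r := by
  have hT : ∀ i : Fin 4, i ∈ ({1, 2, 3} : Finset (Fin 4)) → i = 1 ∨ i = 2 ∨ i = 3 := by decide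
  refine exc_mk {1, 2, 3} ![b, b, a, b1] ?_ ?_ ?_
  · intro i hi j hj hij
    rcases hT i hi with rfl | rfl | rfl <;> rcases hT j hj with rfl | rfl | rfl <;>
      first
        | rfl
        | exact absurd hij n2
        | exact absurd hij n3
        | exact absurd hij n6
        | exact absurd hij.symm n2
        | exact absurd hij.symm n3
        | exact absurd hij.symm n6
  · intro i hi j hj
    rw [key]
    have t : (b = a ↔ False) ∧ (b1 = a ↔ False) ∧ (a = b ↔ False) ∧
        (b1 = b ↔ False) ∧ (a = b1 ↔ False) ∧ (b = b1 ↔ False) := by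
      refine ⟨?_, ?_, ?_, ?_, ?_, ?_⟩ <;> refine iff_of_false ?_ id <;>
        first | assumption | (apply Ne.symm; assumption)
    obtain ⟨t5, t6, t8, t9, t11, t12⟩ := t
    rcases hT i hi with rfl | rfl | rfl <;> rcases hT j hj with rfl | rfl | rfl <;>
      simp [NN, t5, t6, t8, t9, t11, t12]
  · intro u v h
    rcases (key u v).1 h with ⟨rfl, rfl⟩ | ⟨rfl, rfl⟩
    · exact ⟨⟨2, by decide, rfl⟩, ⟨1, by decide, rfl⟩⟩
    · exact ⟨⟨2, by decide, rfl⟩, ⟨3, by decide, rfl⟩⟩

theorem exc3' {a1 b a : V} (n1 : a1 ≠ b) (n2 : a ≠ b) (n5 : a1 ≠ a)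
    (key : ∀ c d, r c d ↔ (c = a1 ∧ d = b) ∨ (c = a ∧ d = b)) : Exc r := by
  have hT : ∀ i : Fin 4, i ∈ ({0, 1, 2} : Finset (Fin 4)) → i = 0 ∨ i = 1 ∨ i = 2 := by decide
  refine exc_mk {0, 1, 2} ![a1, b, a, a] ?_ ?_ ?_
  · intro i hi j hj hij
    rcases hT i hi with rfl | rfl | rfl <;> rcases hT j hj with rfl | rfl | rfl <;>
      first
        | rfl
        | exact absurd hij n2
        | exact absurd hij n1
        | exact absurd hij n5
        | exact absurd hij.symm n2
        | exact absurd hij.symm n1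
        | exact absurd hij.symm n5
  · intro i hi j hj
    rw [key]
    have t : (b = a ↔ False) ∧ (a1 = a ↔ False) ∧ (a = b ↔ False) ∧
        (a1 = b ↔ False) ∧ (a = a1 ↔ False) ∧ (b = a1 ↔ False) := by
      refine ⟨?_, ?_, ?_, ?_, ?_, ?_⟩ <;> refine iff_of_false ?_ id <;>
        first | assumption | (apply Ne.symm; assumption)
    obtain ⟨t5, t6, t8, t9, t11, t12⟩ := t
    rcases hT i hi with rfl | rfl | rfl <;> rcases hT j hj with rfl | rfl | rfl <;>
      simp [NN, t5, t6, t8, t9, t11, t12]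
  · intro u v h
    rcases (key u v).1 h with ⟨rfl, rfl⟩ | ⟨rfl, rfl⟩
    · exact ⟨⟨0, by decide, rfl⟩, ⟨1, by decide, rfl⟩⟩
    · exact ⟨⟨2, by decide, rfl⟩, ⟨1, by decide, rfl⟩⟩

theorem exc2 {b a : V} (n2 : a ≠ b) (key : ∀ c d, r c d ↔ (c = a ∧ d = b)) : Exc r := by
  have hT : ∀ i : Fin 4, i ∈ ({1, 2} : Finset (Fin 4)) → i = 1 ∨ i = 2 := by decide
  refine exc_mk {1, 2} ![b, b, a, a] ?_ ?_ ?_
  · intro i hi j hj hij
    rcases hT i hi with rfl | rfl <;> rcases hT j hj with rfl | rfl <;>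
      first
        | rfl
        | exact absurd hij n2
        | exact absurd hij.symm n2
  · intro i hi j hj
    rw [key]
    have t : (b = a ↔ False) ∧ (a = b ↔ False) := ⟨iff_of_false n2.symm id, iff_of_false n2 id⟩
    obtain ⟨t5, t6⟩ := t
    rcases hT i hi with rfl | rfl <;> rcases hT j hj with rfl | rfl <;> simp [NN, t5, t6]
  · intro u v h
    obtain ⟨rfl, rfl⟩ := (key u v).1 h
    exact ⟨⟨2, by decide, rfl⟩, ⟨1, by decide, rfl⟩⟩

theorem exc_of (hr : PO r) (h1 : ¬ O1 r) (h2 : ¬ O2 r) (h3 : ¬ O3 r) (h4 : ¬ O4 r) (h5 : ¬ O5 r) :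
    Exc r := by
  classical
  have c1 : ∀ a b c, r a b → r b c → False := fun a b c h h' => h1 ⟨a, b, c, h, h'⟩
  have c2 : ∀ a b c d, r a b → r a c → r a d → b ≠ c → d = b ∨ d = c := by
    intro a b c d k1 k2 k3 k4
    by_contra h
    push Not at h
    exact h2 ⟨a, b, c, d, k1, k2, k3, k4, h.1.symm, h.2.symm⟩
  have c3 : ∀ a b c d, r b a → r c a → r d a → b ≠ c → d = b ∨ d = c := by
    intro a b c d k1 k2 k3 k4
    by_contra h
    push Not at h
    exact h3 ⟨a, b, c, d, k1, k2, k3, k4, h.1.symm, h.2.symm⟩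
  have c4 : ∀ a b c d, r a b → r c d → r a d ∨ r c b := by
    intro a b c d k1 k2
    by_contra h
    push Not at h
    exact h4 ⟨a, b, c, d, k1, k2, h.1, h.2⟩
  have c5 : ∀ a a' b b', a ≠ a' → b ≠ b' → r a b → r a b' → r a' b → ¬ r a' b' := by
    intro a a' b b' k1 k2 k3 k4 k5 k6
    exact h5 ⟨a, a', b, b', k1, k2, k3, k4, k5, k6⟩
  by_cases hN : ∃ a1 b a b1, r a1 b ∧ r a b ∧ r a b1 ∧ a1 ≠ a ∧ b ≠ b1
  · obtain ⟨a1, b, a, b1, k1, k2, k3, k4, k5⟩ := hN
    have k6 : ¬ r a1 b1 := fun h => c5 a a1 b b1 k4.symm k5 k2 k3 k1 h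
    have key : ∀ c d, r c d → (c = a1 ∧ d = b) ∨ (c = a ∧ d = b) ∨ (c = a ∧ d = b1) := by
      intro c d hcd
      by_cases e1 : c = a
      · subst e1
        rcases c2 c b b1 d k2 k3 hcd k5 with h | h
        · exact Or.inr (Or.inl ⟨rfl, h⟩)
        · exact Or.inr (Or.inr ⟨rfl, h⟩)
      · by_cases e2 : d = b
        · subst e2
          rcases c3 d a1 a c k1 k2 hcd k4 with h | h
          · exact Or.inl ⟨h, rfl⟩
          · exact absurd h e1
        · exfalso
          rcases c4 c d a b hcd k2 with h | h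
          · -- r c b
            rcases c3 b a1 a c k1 k2 h k4 with h | h
            · subst h
              -- r a1 d, d ≠ b
              rcases c4 c d a b1 hcd k3 with h' | h'
              · exact k6 h'
              · rcases c2 a b b1 d k2 k3 h' k5 with h6 | h6
                · exact e2 h6
                · subst h6
                  exact k6 hcd
            · exact e1 h
          · -- r a d
            rcases c2 a b b1 d k2 k3 h k5 with h | h
            · exact e2 h
            · subst h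
              -- r c b1, c ≠ a
              rcases c4 c d a1 b hcd k1 with h' | h'
              · rcases c3 b a1 a c k1 k2 h' k4 with h6 | h6
                · subst h6
                  exact k6 hcd
                · exact e1 h6
              · exact k6 h'
    have n1 : a1 ≠ b := fun h => hr.irrefl b (by rw [h] at k1; exact k1)
    have n2 : a ≠ b := fun h => hr.irrefl b (by rw [h] at k2; exact k2)
    have n3 : a ≠ b1 := fun h => hr.irrefl b1 (by rw [h] at k3; exact k3)
    have n4 : a1 ≠ b1 := fun h => c1 a a1 b (by rw [h]; exact k3) k1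
    exact exc4 n1 n2 n3 n4 k4 k5 fun c d => ⟨key c d, by
      rintro (⟨rfl, rfl⟩ | ⟨rfl, rfl⟩ | ⟨rfl, rfl⟩)
      · exact k1
      · exact k2
      · exact k3⟩
  · have dN : ∀ a1 b a b1, r a1 b → r a b → r a b1 → a1 = a ∨ b = b1 := by
      intro a1 b a b1 k1 k2 k3
      by_contra h
      push Not at h
      exact hN ⟨a1, b, a, b1, k1, k2, k3, h.1, h.2⟩
    by_cases hV : ∃ a b b1, r a b ∧ r a b1 ∧ b ≠ b1
    · obtain ⟨a, b, b1, k2, k3, k5⟩ := hV
      have key : ∀ c d, r c d → (c = a ∧ d = b) ∨ (c = a ∧ d = b1) := by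
        intro c d hcd
        by_cases e1 : c = a
        · subst e1
          rcases c2 c b b1 d k2 k3 hcd k5 with h | h
          · exact Or.inl ⟨rfl, h⟩
          · exact Or.inr ⟨rfl, h⟩
        · exfalso
          have e3 : ∀ x, r c x → x ≠ b ∧ x ≠ b1 := by
            intro x hx
            refine ⟨?_, ?_⟩
            · rintro rfl
              rcases dN c x a b1 hx k2 k3 with h | h
              · exact e1 h
              · exact k5 h
            · rintro rfl
              rcases dN c x a b hx k3 k2 with h | h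
              · exact e1 h
              · exact k5 h.symm
          rcases c4 c d a b hcd k2 with h | h
          · exact (e3 b h).1 rfl
          · rcases c2 a b b1 d k2 k3 h k5 with h' | h'
            · exact (e3 d hcd).1 h'
            · exact (e3 d hcd).2 h'
      have n2 : a ≠ b := fun h => hr.irrefl b (by rw [h] at k2; exact k2)
      have n3 : a ≠ b1 := fun h => hr.irrefl b1 (by rw [h] at k3; exact k3)
      exact exc3 n2 n3 k5 fun c d => ⟨key c d, by
        rintro (⟨rfl, rfl⟩ | ⟨rfl, rfl⟩)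
        · exact k2
        · exact k3⟩
    · have dV : ∀ a b b1, r a b → r a b1 → b = b1 := by
        intro a b b1 k1 k2
        by_contra h
        exact hV ⟨a, b, b1, k1, k2, h⟩
      by_cases hL : ∃ a a1 b, r a b ∧ r a1 b ∧ a ≠ a1
      · obtain ⟨a, a1, b, k2, k1, k4⟩ := hL
        have key : ∀ c d, r c d → (c = a1 ∧ d = b) ∨ (c = a ∧ d = b) := by
          intro c d hcd
          by_cases e2 : d = b
          · subst e2
            rcases c3 d a1 a c k1 k2 hcd k4.symm with h | h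
            · exact Or.inl ⟨h, rfl⟩
            · exact Or.inr ⟨h, rfl⟩
          · exfalso
            rcases c4 c d a b hcd k2 with h | h
            · exact e2 (dV c d b hcd h)
            · exact e2 (dV a d b h k2)
        have n1 : a1 ≠ b := fun h => hr.irrefl b (by rw [h] at k1; exact k1)
        have n2 : a ≠ b := fun h => hr.irrefl b (by rw [h] at k2; exact k2)
        exact exc3' n1 n2 k4.symm fun c d => ⟨key c d, by
          rintro (⟨rfl, rfl⟩ | ⟨rfl, rfl⟩)
          · exact k1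
          · exact k2⟩
      · have dL : ∀ a a1 b, r a b → r a1 b → a = a1 := by
          intro a b b1 k1 k2
          by_contra h
          exact hL ⟨a, b, b1, k1, k2, h⟩
        by_cases hE : ∃ a b, r a b
        · obtain ⟨a, b, k2⟩ := hE
          have key : ∀ c d, r c d → c = a ∧ d = b := by
            intro c d hcd
            rcases c4 c d a b hcd k2 with h | h
            · exact ⟨dL c a b h k2, dV c d b hcd h⟩
            · exact ⟨dL c a d hcd h, dV a d b h k2⟩
          have n2 : a ≠ b := fun h => hr.irrefl b (by rw [h] at k2; exact k2)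
          exact exc2 n2 fun c d => ⟨key c d, by
            rintro ⟨rfl, rfl⟩
            exact k2⟩
        · refine ⟨∅, fun u v h => absurd ⟨u, v, h⟩ hE, fun _ => 0, ?_, ?_⟩
          · intro x hx
            exact absurd hx (Set.notMem_empty x)
          · intro x hx
            exact absurd hx (Set.notMem_empty x)

/-- exceptional connected orders embed in N -/
theorem emb_of_conn (h : Exc r)
    (hc : ∀ u v, Relation.ReflTransGen (fun x y => r x y ∨ r y x) u v) : EmbN r := by
  obtain ⟨S, h1, f, h2, h3⟩ := h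
  by_cases hS : ∀ u, u ∈ S
  · exact ⟨f, fun u v huv => h2 (hS u) (hS v) huv, fun u v => h3 u (hS u) v (hS v)⟩
  · push Not at hS
    obtain ⟨u, hu⟩ := hS
    have key : ∀ v, v = u := by
      intro v
      rcases Relation.ReflTransGen.cases_head (hc u v) with h | ⟨w, h | h, -⟩
      · exact h.symm
      · exact absurd (h1 _ _ h).1 hu
      · exact absurd (h1 _ _ h).2 hu
    refine ⟨fun _ => 0, fun v w _ => (key v).trans (key w).symm, fun v w => ?_⟩
    refine iff_of_false (fun h => ?_) (by simp [NN])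
    rw [key v] at h
    exact hu (h1 _ _ h).1

end Pool.Agent.TH686.FS
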