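import Pool.Agent.W889.SD.Deg
import Pool.Agent.TH686.FS.Comb

set_option autoImplicit false

/-! Three faithfully complete classes of partial orders. -/

namespace Pool.Agent.TH686.FS

open Pool.Agent.W889.VC Pool.Agent.W889.SD

/-- the relation is a strict partial order -/
def POB (y : BinStr) : Prop := PO (rel y)

/-- partial orders of height two in which no element is below three others -/
def Two (y : BinStr) : Prop :=
  POB y ∧ (∀ a b c, rel y a b → ¬ rel y b c) ∧
    ∀ a b c d, rel y a b → rel y a c → rel y a d → b = c ∨ b = d ∨ c = d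

/-- interval orders which are the union of a chain and an antichain -/
def CAI (y : BinStr) : Prop :=
  IntervalOrder y ∧ ∃ A : ℕ → Prop, (∀ u v, A u → A v → u ≠ v → rel y u v ∨ rel y v u) ∧
    ∀ u v, ¬ A u → ¬ A v → ¬ rel y u v

/-- the dual relation -/
def dl (y : BinStr) : BinStr := fun u v => y v u

/-- the comparability graph -/
def cg (y : BinStr) : BinStr := fun u v => y u v || y v u

theorem measurable_dl : Measurable dl := by
  refine measurable_pi_iff.2 fun u => measurable_pi_iff.2 fun v => ?_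
  exact (measurable_pi_apply u).comp (measurable_pi_apply v)

theorem measurable_cg : Measurable cg := by
  refine measurable_pi_iff.2 fun u => measurable_pi_iff.2 fun v => ?_
  refine measurable_to_bool ?_
  have : (fun y : BinStr => cg y u v) ⁻¹' {true} = {y | y u v = true ∨ y v u = true} := by
    ext y
    simp [cg]
  rw [this]
  exact (bp_atom u v).or (bp_atom v u)

theorem dl_iso {y z : BinStr} : BIso (dl y) (dl z) ↔ BIso y z :=
  ⟨fun ⟨σ, h⟩ => ⟨σ, fun m n => h n m⟩, fun ⟨σ, h⟩ => ⟨σ, fun m n => h n m⟩⟩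

theorem faithful_dual {K : BinStr → Prop} (h : Faithful BIso K) :
    Faithful BIso (fun y => K (dl y)) := by
  intro a B hB hinv
  obtain ⟨B', F, k1, k2, k3, k4, k5, k6, k7⟩ := h a B hB hinv
  refine ⟨dl ⁻¹' B', F ∘ dl, measurable_dl k1, fun y z hyz => k2 _ _ (dl_iso.2 hyz),
    fun y hy => k3 _ hy, k4.comp measurable_dl, fun y hy => k5 _ hy, fun y hy z hz => ?_,
    fun x hx => ?_⟩
  · rw [← dl_iso]
    exact k6 _ hy _ hz
  · obtain ⟨y, h1, h2⟩ := k7 x hx
    exact ⟨dl y, h1, h2⟩

/-- orientations of subdivided graphs -/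
def WO (z : BinStr) : Prop :=
  WS 0 (cg z) ∧ ∀ u v, z u v = true → ¬ Big (rel (cg z)) u ∧ Big (rel (cg z)) v

theorem cg_equi {σ : Equiv.Perm ℕ} {y z : BinStr} (h : ∀ m n, z (σ m) (σ n) = y m n) (m n : ℕ) :
    cg z (σ m) (σ n) = cg y m n := by
  unfold cg
  rw [h, h]

theorem cg_iso {y z : BinStr} (h : BIso y z) : BIso (cg y) (cg z) := by
  obtain ⟨σ, h⟩ := h
  exact ⟨σ, cg_equi h⟩

theorem WO_iff {z : BinStr} (h : WO z) (u v : ℕ) :
    z u v = true ↔ rel (cg z) u v ∧ ¬ Big (rel (cg z)) u := by
  constructor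
  · intro h1
    refine ⟨?_, (h.2 u v h1).1⟩
    show (z u v || z v u) = true
    rw [h1]
    rfl
  · rintro ⟨h1, h2⟩
    have h3 : (z u v || z v u) = true := h1
    rw [Bool.or_eq_true] at h3
    rcases h3 with h3 | h3
    · exact h3
    · exact absurd (h.2 v u h3).2 h2

theorem WO_class {z : BinStr} (h : WO z) : Two z := by
  refine ⟨⟨fun u hu => ?_, fun u v w h1 h2 => ?_⟩, fun a b c h1 h2 => ?_,
    fun a b c d h1 h2 h3 => ?_⟩
  · exact (h.2 u u hu).1 (h.2 u u hu).2
  · exact absurd (h.2 u v h1).2 (h.2 v w h2).1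
  · exact absurd (h.2 a b h1).2 (h.2 b c h2).1
  · by_contra hn
    push Not at hn
    exact (h.2 a b h1).1 ⟨b, c, d, hn.1, hn.2.1, hn.2.2, ((WO_iff h _ _).1 h1).1,
      ((WO_iff h _ _).1 h2).1, ((WO_iff h _ _).1 h3).1⟩

theorem faithful_two : Faithful BIso Two := by
  classical
  refine faithful_interp (faithful_sub 0) (W := WO) (δ := cg) (fun _ _ h => h.symm) ?_
    measurable_cg ?_ ?_ ?_ (fun y hy => WO_class hy)
  · have h1 : MeasurableSet {z : BinStr | WS 0 (cg z)} := measurable_cg (bp_WS 0)
    have hr : ∀ u v, BP (fun z : BinStr => rel (cg z) u v) := fun u v =>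
      measurable_cg (bp_atom u v)
    have h2 : ∀ u, BP (fun z : BinStr => Big (rel (cg z)) u) := fun u =>
      bp_big (r := fun u v z => rel (cg z) u v) hr u
    have h3 : BP (fun z : BinStr => ∀ u v, z u v = true →
        ¬ Big (rel (cg z)) u ∧ Big (rel (cg z)) v) :=
      BP.all fun u => BP.all fun v => (bp_atom u v).imp ((h2 u).not.and (h2 v))
    exact BP.and (p := fun z => WS 0 (cg z)) h1 h3
  · rintro y z h ⟨h1, h2⟩
    refine ⟨WS_inv (cg_iso h) h1, ?_⟩
    obtain ⟨σ, h⟩ := h
    intro u v huv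
    obtain ⟨u, rfl⟩ := σ.surjective u
    obtain ⟨v, rfl⟩ := σ.surjective v
    rw [h] at huv
    have hr := rel_equi (cg_equi h)
    rw [← big_map σ hr, ← big_map σ hr]
    exact h2 u v huv
  · intro y z hy hz
    refine ⟨cg_iso, ?_⟩
    rintro ⟨σ, h⟩
    have hr := rel_equi h
    refine ⟨σ, fun m n => ?_⟩
    rw [Bool.eq_iff_iff, WO_iff hy, WO_iff hz, ← big_map σ hr, ← hr]
  · intro x hx
    have hs : ∀ u v, rel x u v → rel x v u := hx.1.symm
    let z : BinStr := fun u v => decide (rel x u v ∧ ¬ Big (rel x) u)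
    have hz : ∀ u v, z u v = true ↔ rel x u v ∧ ¬ Big (rel x) u := fun u v => by simp [z]
    have hcov : ∀ u v, rel x u v → ¬ Big (rel x) u → Big (rel x) v := by
      intro u v huv hu
      rcases hx.1.cov u hu with h | ⟨w, p, w', i, hP, rfl⟩
      · exact absurd huv (h v)
      · rcases hx.1.cl w p w' i v hP huv with ⟨rfl, -⟩ | ⟨rfl, -⟩ | ⟨j, rfl, hj⟩
        · exact hP.bw
        · exact hP.bw'
        · have := i.2
          have := j.2
          omega
    have e : cg z = x := by
      funext u v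
      rw [Bool.eq_iff_iff]
      show (z u v || z v u) = true ↔ _
      rw [Bool.or_eq_true, hz, hz]
      constructor
      · rintro (h | h)
        · exact h.1
        · exact hs _ _ h.1
      · intro h
        by_cases h1 : Big (rel x) u
        · right
          refine ⟨hs _ _ h, fun h2 => ?_⟩
          exact hx.1.indep u v h1 h2 h
        · exact Or.inl ⟨h, h1⟩
    refine ⟨z, ⟨by rw [e]; exact hx, fun u v huv => ?_⟩, ?_⟩
    · rw [e]
      have h1 := (hz u v).1 huv
      exact ⟨h1.2, hcov u v h1.1 h1.2⟩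
    · rw [e]
      exact ⟨Equiv.refl _, fun _ _ => rfl⟩

/-- the interval orders of grids are unions of a chain and an antichain -/
theorem target_CAI : Target BIso CAI DI WI :=
  { target_IO with
    cls := fun y hW hb => ⟨target_IO.cls y hW hb, fun u => ¬ (DI y).P u, by
      intro u v hu hv hne
      have hu' := cases3 (DI y) u
      have hv' := cases3 (DI y) v
      rcases hu' with hu' | hu' | hu' <;> rcases hv' with hv' | hv' | hv'
      · rcases hb.dR.total u v hu' hv' hne with h | h
        · exact Or.inl ((hW.1.rr u v hu' hv').2 h)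
        · exact Or.inr ((hW.1.rr v u hv' hu').2 h)
      · exact Or.inl (hW.1.rc u v hu' hv')
      · exact absurd hv' hv
      · exact Or.inr (hW.1.rc v u hv' hu')
      · rcases hb.dC.total u v hu' hv' hne with h | h
        · exact Or.inl ((hW.1.cc u v hu' hv').2 h)
        · exact Or.inr ((hW.1.cc v u hv' hu').2 h)
      · exact absurd hv' hv
      · exact absurd hu' hu
      · exact absurd hu' hu
      · exact absurd hu' hu, by
      intro u v hu hv
      exact hW.2 u v (not_not.1 hu) (not_not.1 hv)⟩ }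

end Pool.Agent.TH686.FS
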