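import Pool.Agent.TH686.FS.Comb

set_option autoImplicit false

/-! Suborders with at least six elements. -/

namespace Pool.Agent.TH686.FS

variable {V : Type} {r : V → V → Prop}

/-- an element below two others, and three isolated elements -/
def O6 (r : V → V → Prop) : Prop :=
  ∃ a b c, r a b ∧ r a c ∧ b ≠ c ∧ ∃ x : Fin 3 → V, Function.Injective x ∧
    (∀ i j, ¬ r (x i) (x j)) ∧ ∀ i w, (w = a ∨ w = b ∨ w = c) →
      ¬ r (x i) w ∧ ¬ r w (x i) ∧ x i ≠ w

/-- an element above two others, and three isolated elements -/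
def O7 (r : V → V → Prop) : Prop := O6 (fun u v => r v u)

/-- the order N and two isolated elements -/
def O8 (r : V → V → Prop) : Prop :=
  ∃ a b c d, r a b ∧ r c b ∧ r c d ∧ ¬ r a d ∧ a ≠ c ∧ b ≠ d ∧
    ∃ x : Fin 2 → V, Function.Injective x ∧
    (∀ i j, ¬ r (x i) (x j)) ∧ ∀ i w, (w = a ∨ w = b ∨ w = c ∨ w = d) →
      ¬ r (x i) w ∧ ¬ r w (x i) ∧ x i ≠ w

theorem O6.map {T : Type} {y : T → T → Prop} {f : V → T} (hf : Function.Injective f)
    (h : ∀ u v, y (f u) (f v) ↔ r u v) (hr : O6 r) : O6 y := by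
  obtain ⟨a, b, c, h1, h2, h3, x, h4, h5, h6⟩ := hr
  refine ⟨f a, f b, f c, (h _ _).2 h1, (h _ _).2 h2, fun e => h3 (hf e), fun i => f (x i),
    fun i j hij => h4 (hf hij), fun i j => fun k => h5 i j ((h _ _).1 k), fun i w hw => ?_⟩
  rcases hw with rfl | rfl | rfl
  · obtain ⟨k1, k2, k3⟩ := h6 i a (Or.inl rfl)
    exact ⟨fun k => k1 ((h _ _).1 k), fun k => k2 ((h _ _).1 k), fun k => k3 (hf k)⟩
  · obtain ⟨k1, k2, k3⟩ := h6 i b (Or.inr (Or.inl rfl))
    exact ⟨fun k => k1 ((h _ _).1 k), fun k => k2 ((h _ _).1 k), fun k => k3 (hf k)⟩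
  · obtain ⟨k1, k2, k3⟩ := h6 i c (Or.inr (Or.inr rfl))
    exact ⟨fun k => k1 ((h _ _).1 k), fun k => k2 ((h _ _).1 k), fun k => k3 (hf k)⟩

theorem O8.map {T : Type} {y : T → T → Prop} {f : V → T} (hf : Function.Injective f)
    (h : ∀ u v, y (f u) (f v) ↔ r u v) (hr : O8 r) : O8 y := by
  obtain ⟨a, b, c, d, h1, h2, h3, h7, h8, h9, x, h4, h5, h6⟩ := hr
  refine ⟨f a, f b, f c, f d, (h _ _).2 h1, (h _ _).2 h2, (h _ _).2 h3,
    fun k => h7 ((h _ _).1 k), fun e => h8 (hf e), fun e => h9 (hf e), fun i => f (x i),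
    fun i j hij => h4 (hf hij), fun i j => fun k => h5 i j ((h _ _).1 k), fun i w hw => ?_⟩
  rcases hw with rfl | rfl | rfl | rfl
  · obtain ⟨k1, k2, k3⟩ := h6 i a (Or.inl rfl)
    exact ⟨fun k => k1 ((h _ _).1 k), fun k => k2 ((h _ _).1 k), fun k => k3 (hf k)⟩
  · obtain ⟨k1, k2, k3⟩ := h6 i b (Or.inr (Or.inl rfl))
    exact ⟨fun k => k1 ((h _ _).1 k), fun k => k2 ((h _ _).1 k), fun k => k3 (hf k)⟩
  · obtain ⟨k1, k2, k3⟩ := h6 i c (Or.inr (Or.inr (Or.inl rfl)))
    exact ⟨fun k => k1 ((h _ _).1 k), fun k => k2 ((h _ _).1 k), fun k => k3 (hf k)⟩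
  · obtain ⟨k1, k2, k3⟩ := h6 i d (Or.inr (Or.inr (Or.inr rfl)))
    exact ⟨fun k => k1 ((h _ _).1 k), fun k => k2 ((h _ _).1 k), fun k => k3 (hf k)⟩

/-- the exceptional orders -/
def Exc6 (r : V → V → Prop) : Prop :=
  Exc r ∧ ((∀ a b c d, r a b → r c d → a = c ∧ b = d) ∨
    ∃ g : V → Fin 5, Function.Injective g)

/-- elements outside a finite set -/
theorem outside {n m : ℕ} (h : ¬ ∃ g : V → Fin 5, Function.Injective g) (s : Finset V)
    (hs : s.card ≤ n) (hm : n + m = 6) :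
    ∃ x : Fin m → V, Function.Injective x ∧ ∀ i, x i ∉ s := by
  classical
  have h6 : ∃ t : Finset V, t.card = 6 := by
    rcases finite_or_infinite V with hf | hf
    · have := Fintype.ofFinite V
      by_contra hcon
      push Not at hcon
      have h1 : Fintype.card V ≤ 5 := by
        by_contra h2
        obtain ⟨t, -, ht⟩ := Finset.exists_subset_card_eq (s := (Finset.univ : Finset V)) (n := 6)
          (by rw [Finset.card_univ]; omega)
        exact hcon t ht
      apply h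
      let e := Fintype.equivFin V
      exact ⟨fun v => Fin.castLE h1 (e v), fun u v huv =>
        e.injective (Fin.castLE_injective h1 huv)⟩
    · obtain ⟨t, ht⟩ := Infinite.exists_subset_card_eq V 6
      exact ⟨t, ht⟩
  obtain ⟨t, ht⟩ := h6
  have h2 : m ≤ (t \ s).card := by
    have := Finset.le_card_sdiff s t
    omega
  obtain ⟨t', h3, h4⟩ := Finset.exists_subset_card_eq h2
  let e := (Finset.equivFinOfCardEq h4).symm
  refine ⟨fun i => (e i : V), fun i j hij => e.injective (Subtype.ext hij), fun i => ?_⟩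
  exact (Finset.mem_sdiff.1 (h3 (e i).2)).2

theorem exc6_fork (h6 : ¬ O6 r) (h8 : ¬ O8 r) (h5 : ¬ ∃ g : V → Fin 5, Function.Injective g)
    {S : Set V} (hS : ∀ u v, r u v → u ∈ S ∧ v ∈ S) {f : V → Fin 4} (hf : Set.InjOn f S)
    (hr : ∀ u ∈ S, ∀ v ∈ S, r u v ↔ NN (f u) (f v)) {a b c : V} (hab : r a b) (hac : r a c)
    (hb : f b = 1) (hc : f c = 3) (ha : f a = 2) : False := by
  classical
  have hir : ∀ u v, r u v → NN (f u) (f v) := fun u v h => (hr u (hS u v h).1 v (hS u v h).2).1 h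
  have hbS := (hS _ _ hab).2
  have haS := (hS _ _ hab).1
  have hcS := (hS _ _ hac).2
  have hbc : b ≠ c := by
    rintro rfl
    rw [hb] at hc
    exact absurd hc (by decide)
  by_cases he : ∃ e ∈ S, f e = 0
  · obtain ⟨e, heS, he⟩ := he
    have heb : r e b := (hr e heS b hbS).2 (by rw [he, hb]; decide)
    obtain ⟨x, hx, hxs⟩ := outside (n := 4) (m := 2) h5 {e, b, a, c}
      (by
        refine (Finset.card_insert_le _ _).trans ?_
        have := Finset.card_le_three (a := b) (b := a) (c := c)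
        omega) rfl
    have hxS : ∀ i, x i ∉ S := by
      intro i hi
      have h1 : ∀ w ∈ S, f (x i) = f w → x i = w := fun w hw h => hf hi hw h
      have h2 := hxs i
      simp only [Finset.mem_insert, Finset.mem_singleton, not_or] at h2
      obtain ⟨k1, k2, k3, k4⟩ := h2
      have h3 : f (x i) = 0 ∨ f (x i) = 1 ∨ f (x i) = 2 ∨ f (x i) = 3 := by
        generalize f (x i) = t
        revert t
        decide
      rcases h3 with h3 | h3 | h3 | h3
      · exact k1 (h1 e heS (by rw [h3, he]))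
      · exact k2 (h1 b hbS (by rw [h3, hb]))
      · exact k3 (h1 a haS (by rw [h3, ha]))
      · exact k4 (h1 c hcS (by rw [h3, hc]))
    refine h8 ⟨e, b, a, c, heb, hab, hac, fun h => ?_, ?_, hbc, x, hx, fun i j h => ?_,
      fun i w hw => ⟨fun h => hxS i (hS _ _ h).1, fun h => hxS i (hS _ _ h).2, ?_⟩⟩
    · have := hir _ _ h
      rw [he, hc] at this
      exact absurd this (by decide)
    · rintro rfl
      rw [he] at ha
      exact absurd ha (by decide)
    · exact hxS i (hS _ _ h).1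
    · rintro rfl
      have h2 := hxs i
      simp only [Finset.mem_insert, Finset.mem_singleton, not_or] at h2
      obtain ⟨k1, k2, k3, k4⟩ := h2
      rcases hw with h | h | h | h
      · exact k1 h
      · exact k2 h
      · exact k3 h
      · exact k4 h
  · push Not at he
    obtain ⟨x, hx, hxs⟩ := outside (n := 3) (m := 3) h5 {a, b, c} Finset.card_le_three rfl
    have hxS : ∀ i, x i ∉ S := by
      intro i hi
      have h1 : ∀ w ∈ S, f (x i) = f w → x i = w := fun w hw h => hf hi hw h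
      have h2 := hxs i
      simp only [Finset.mem_insert, Finset.mem_singleton, not_or] at h2
      obtain ⟨k1, k2, k3⟩ := h2
      have h3 : f (x i) = 0 ∨ f (x i) = 1 ∨ f (x i) = 2 ∨ f (x i) = 3 := by
        generalize f (x i) = t
        revert t
        decide
      rcases h3 with h3 | h3 | h3 | h3
      · exact he _ hi h3
      · exact k2 (h1 b hbS (by rw [h3, hb]))
      · exact k1 (h1 a haS (by rw [h3, ha]))
      · exact k3 (h1 c hcS (by rw [h3, hc]))
    refine h6 ⟨a, b, c, hab, hac, hbc, x, hx, fun i j h => hxS i (hS _ _ h).1,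
      fun i w hw => ⟨fun h => hxS i (hS _ _ h).1, fun h => hxS i (hS _ _ h).2, ?_⟩⟩
    rintro rfl
    have h2 := hxs i
    simp only [Finset.mem_insert, Finset.mem_singleton, not_or] at h2
    obtain ⟨k1, k2, k3⟩ := h2
    rcases hw with h | h | h
    · exact k1 h
    · exact k2 h
    · exact k3 h

/-- the other case, by duality -/
theorem exc6_cofork (h7 : ¬ O7 r) (h8 : ¬ O8 r)
    (h5 : ¬ ∃ g : V → Fin 5, Function.Injective g)
    {S : Set V} (hS : ∀ u v, r u v → u ∈ S ∧ v ∈ S) {f : V → Fin 4} (hf : Set.InjOn f S)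
    (hr : ∀ u ∈ S, ∀ v ∈ S, r u v ↔ NN (f u) (f v)) {a b c : V} (hba : r b a) (hca : r c a)
    (hb : f b = 0) (hc : f c = 2) (ha : f a = 1) : False := by
  have hN : ∀ i j : Fin 4, NN i j ↔ NN (Fin.rev j) (Fin.rev i) := by decide
  refine exc6_fork (r := fun u v => r v u) (S := S) (f := fun u => (f u).rev) (a := a) (b := c)
    (c := b) h7 ?_ h5 (fun u v h => ⟨(hS v u h).2, (hS v u h).1⟩)
    (fun u hu v hv h => hf hu hv (Fin.rev_injective h)) (fun u hu v hv => ?_) hca hba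
    (by show (f c).rev = 1; rw [hc]; decide) (by show (f b).rev = 3; rw [hb]; decide)
    (by show (f a).rev = 2; rw [ha]; decide)
  · rintro ⟨a, b, c, d, h1, h2, h3, k1, k2, k3, x, h4, h5, h6⟩
    refine h8 ⟨d, c, b, a, h3, h2, h1, k1, k3.symm, k2.symm, x, h4, fun i j => h5 j i,
      fun i w hw => ?_⟩
    obtain ⟨j1, j2, j3⟩ := h6 i w (by tauto)
    exact ⟨j2, j1, j3⟩
  · rw [hr v hv u hu, hN]

theorem exc6_of (h : Exc r) (h6 : ¬ O6 r) (h7 : ¬ O7 r) (h8 : ¬ O8 r) : Exc6 r := by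
  refine ⟨h, ?_⟩
  by_contra hcon
  push Not at hcon
  obtain ⟨⟨a, b, c, d, hab, hcd, hne⟩, h5⟩ := hcon
  have h5' : ¬ ∃ g : V → Fin 5, Function.Injective g := fun ⟨g, hg⟩ => h5 g hg
  obtain ⟨S, hS, f, hf, hr⟩ := h
  have hir : ∀ u v, r u v → NN (f u) (f v) := fun u v h => (hr u (hS u v h).1 v (hS u v h).2).1 h
  have haS := (hS _ _ hab).1
  have hbS := (hS _ _ hab).2
  have hcS := (hS _ _ hcd).1
  have hdS := (hS _ _ hcd).2
  have h1 := hir _ _ hab
  have h2 := hir _ _ hcd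
  rcases h1 with ⟨i1, i2⟩ | ⟨i1, i2⟩ | ⟨i1, i2⟩ <;> rcases h2 with ⟨j1, j2⟩ | ⟨j1, j2⟩ | ⟨j1, j2⟩
  · exact hne (hf haS hcS (by rw [i1, j1])) (hf hbS hdS (by rw [i2, j2]))
  · have e : b = d := hf hbS hdS (by rw [i2, j2])
    subst e
    exact exc6_cofork h7 h8 h5' hS hf hr hab hcd i1 j1 i2
  · have hcb : r c b := (hr c hcS b hbS).2 (by rw [j1, i2]; decide)
    exact exc6_cofork h7 h8 h5' hS hf hr hab hcb i1 j1 i2
  · have e : b = d := hf hbS hdS (by rw [i2, j2])
    subst e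
    exact exc6_cofork h7 h8 h5' hS hf hr hcd hab j1 i1 i2
  · exact hne (hf haS hcS (by rw [i1, j1])) (hf hbS hdS (by rw [i2, j2]))
  · have e : a = c := hf haS hcS (by rw [i1, j1])
    subst e
    exact exc6_fork h6 h8 h5' hS hf hr hab hcd i2 j2 i1
  · have had : r a d := (hr a haS d hdS).2 (by rw [i1, j2]; decide)
    exact exc6_cofork h7 h8 h5' hS hf hr hcd had j1 i1 j2
  · have e : a = c := hf haS hcS (by rw [i1, j1])
    subst e
    exact exc6_fork h6 h8 h5' hS hf hr hcd hab j2 i2 i1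
  · exact hne (hf haS hcS (by rw [i1, j1])) (hf hbS hdS (by rw [i2, j2]))

end Pool.Agent.TH686.FS
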