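import Pool.Agent.TH686.FS.Cls
import Pool.Agent.TH686.FS.Six

set_option autoImplicit false

/-! Non-incidence orders of graphs: a faithfully complete class of partial orders. -/

namespace Pool.Agent.TH686.FS

open Pool.Agent.W889.VC Pool.Agent.W889.SD

/-- no two elements of degree two with the same neighbours -/
theorem sub_unique {T : Type} {x : T → T → Prop} (h : Subd 0 x) {u v w w' : T} (hu : ¬ Big x u)
    (hv : ¬ Big x v) (hw : Big x w) (hw' : Big x w') (hne : w ≠ w') (h1 : x u w) (h2 : x u w')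
    (h3 : x v w) (h4 : x v w') : u = v := by
  have hp : ∀ t, ¬ Big x t → x t w → x t w' → Pth 0 x w (fun _ => t) w' := fun t ht k1 k2 =>
    { bw := hw
      bw' := hw'
      ne := hne
      inj := fun i j _ => Fin.ext (by
        have := i.2
        have := j.2
        omega)
      nb := fun _ => ht
      st := fun _ _ => h.symm _ _ k1
      mid := fun i j hij => by
        have := i.2
        have := j.2
        omega
      en := fun _ _ => k2 }
  have h5 := h.uq _ _ _ _ (hp u hu h1 h2) (hp v hv h3 h4)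
  exact congrFun h5 0

theorem sub_cov {T : Type} {x : T → T → Prop} (h : Subd 0 x) {u v : T} (hu : ¬ Big x u)
    (huv : x u v) : Big x v := by
  rcases h.cov u hu with h1 | ⟨w, p, w', i, hP, rfl⟩
  · exact absurd huv (h1 v)
  · rcases h.cl w p w' i v hP huv with ⟨rfl, -⟩ | ⟨rfl, -⟩ | ⟨j, rfl, hj⟩
    · exact hP.bw
    · exact hP.bw'
    · have := i.2
      have := j.2
      omega

/-- the non-incidence order of a subdivided graph -/
theorem nonincidence {T : Type} {x z : T → T → Prop} (h : Subd 0 x)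
    (hz : ∀ u v, z u v ↔ ¬ Big x u ∧ Big x v ∧ ¬ x u v) :
    PO z ∧ (∀ a b c, z a b → ¬ z b c) ∧ ¬ O6 z ∧ ¬ O8 z := by
  have hht : ∀ a b c, z a b → ¬ z b c := fun a b c h1 h2 =>
    ((hz _ _).1 h2).1 ((hz _ _).1 h1).2.1
  have hadj : ∀ u v, ¬ Big x u → Big x v → ¬ z u v → x u v := by
    intro u v hu hv h1
    by_contra h2
    exact h1 ((hz _ _).2 ⟨hu, hv, h2⟩)
  have hthree : ∀ u a b c, ¬ Big x u → a ≠ b → a ≠ c → b ≠ c → x u a → x u b → x u c → False :=
    fun u a b c hu h1 h2 h3 h4 h5 h6 => hu ⟨a, b, c, h1, h2, h3, h4, h5, h6⟩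
  refine ⟨⟨fun u hu => hht u u u hu hu, fun u v w h1 h2 => absurd h2 (hht _ _ _ h1)⟩, hht,
    ?_, ?_⟩
  · rintro ⟨a, b, c, h1, h2, h3, e, h4, h5, h6⟩
    have ha := ((hz _ _).1 h1).1
    have hb := ((hz _ _).1 h1).2.1
    have hc := ((hz _ _).1 h2).2.1
    have hsmall : ∀ i, ¬ Big x (e i) → x (e i) b ∧ x (e i) c := fun i hi =>
      ⟨hadj _ _ hi hb (h6 i b (by tauto)).1, hadj _ _ hi hc (h6 i c (by tauto)).1⟩
    have hbig : ∀ i, Big x (e i) → x a (e i) := fun i hi =>
      hadj _ _ ha hi (h6 i a (by tauto)).2.1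
    have hmix : ∀ i j, ¬ Big x (e i) → ¬ Big x (e j) → i = j := fun i j hi hj =>
      h4 (sub_unique h hi hj hb hc h3 (hsmall i hi).1 (hsmall i hi).2 (hsmall j hj).1
        (hsmall j hj).2)
    have hmix2 : ∀ i j, ¬ Big x (e i) → Big x (e j) → False := by
      intro i j hi hj
      have h7 := hadj _ _ hi hj (h5 i j)
      exact hthree (e i) b c (e j) hi h3 (fun h => (h6 j b (by tauto)).2.2 h.symm)
        (fun h => (h6 j c (by tauto)).2.2 h.symm) (hsmall i hi).1 (hsmall i hi).2 h7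
    by_cases k0 : Big x (e 0)
    · have k1 : Big x (e 1) := by
        by_contra k
        exact hmix2 1 0 k k0
      have k2 : Big x (e 2) := by
        by_contra k
        exact hmix2 2 0 k k0
      exact hthree a (e 0) (e 1) (e 2) ha (fun h => absurd (h4 h) (by decide))
        (fun h => absurd (h4 h) (by decide)) (fun h => absurd (h4 h) (by decide))
        (hbig 0 k0) (hbig 1 k1) (hbig 2 k2)
    · by_cases k1 : Big x (e 1)
      · exact hmix2 0 1 k0 k1
      · exact absurd (hmix 0 1 k0 k1) (by decide)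
  · rintro ⟨a, b, c, d, h1, h2, h3, h7, h8, h9, e, h4, h5, h6⟩
    have ha := ((hz _ _).1 h1).1
    have hb := ((hz _ _).1 h1).2.1
    have hd := ((hz _ _).1 h3).2.1
    have had := hadj _ _ ha hd h7
    have hsmall : ∀ i, ¬ Big x (e i) → x (e i) b ∧ x (e i) d := fun i hi =>
      ⟨hadj _ _ hi hb (h6 i b (by tauto)).1, hadj _ _ hi hd (h6 i d (by tauto)).1⟩
    have hbig : ∀ i, Big x (e i) → x a (e i) := fun i hi =>
      hadj _ _ ha hi (h6 i a (by tauto)).2.1
    have hmix : ∀ i j, ¬ Big x (e i) → ¬ Big x (e j) → i = j := fun i j hi hj =>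
      h4 (sub_unique h hi hj hb hd h9 (hsmall i hi).1 (hsmall i hi).2 (hsmall j hj).1
        (hsmall j hj).2)
    have hmix2 : ∀ i j, ¬ Big x (e i) → Big x (e j) → False := by
      intro i j hi hj
      have h7 := hadj _ _ hi hj (h5 i j)
      exact hthree (e i) b d (e j) hi h9 (fun h => (h6 j b (by tauto)).2.2 h.symm)
        (fun h => (h6 j d (by tauto)).2.2 h.symm) (hsmall i hi).1 (hsmall i hi).2 h7
    by_cases k0 : Big x (e 0)
    · have k1 : Big x (e 1) := by
        by_contra k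
        exact hmix2 1 0 k k0
      exact hthree a (e 0) (e 1) d ha (fun h => absurd (h4 h) (by decide))
        (fun h => (h6 0 d (by tauto)).2.2 h) (fun h => (h6 1 d (by tauto)).2.2 h)
        (hbig 0 k0) (hbig 1 k1) had
    · by_cases k1 : Big x (e 1)
      · exact hmix2 0 1 k0 k1
      · exact absurd (hmix 0 1 k0 k1) (by decide)

/-- partial orders of height two without an element below two others and three isolated elements,
and without N and two isolated elements -/
def Cob (z : BinStr) : Prop :=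
  POB z ∧ (∀ a b c, rel z a b → ¬ rel z b c) ∧ ¬ O6 (rel z) ∧ ¬ O8 (rel z)

/-- elements which are not minimal -/
def Hi {T : Type} (z : T → T → Prop) (v : T) : Prop := ∃ u, z u v

theorem hi_map {S T : Type} {y : T → T → Prop} {z : S → S → Prop} (e : T ≃ S)
    (h : ∀ u v, y u v ↔ z (e u) (e v)) (u : T) : Hi y u ↔ Hi z (e u) := by
  constructor
  · rintro ⟨v, hv⟩
    exact ⟨e v, (h _ _).1 hv⟩
  · rintro ⟨v, hv⟩
    obtain ⟨v, rfl⟩ := e.surjective v
    exact ⟨v, (h _ _).2 hv⟩

/-- the graph of a non-incidence order -/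
def Dx {T : Type} (z : T → T → Prop) (u v : T) : Prop :=
  (¬ Hi z u ∧ Hi z v ∧ ¬ z u v) ∨ (Hi z u ∧ ¬ Hi z v ∧ ¬ z v u)

open Classical in
/-- the graph as a Boolean function -/
noncomputable def dx (z : BinStr) : BinStr := fun u v => decide (Dx (rel z) u v)

theorem rel_dx (z : BinStr) : rel (dx z) = Dx (rel z) := by
  classical
  funext u v
  show (dx z u v = true) = _
  unfold dx
  simp

theorem bp_hi (v : ℕ) : BP (fun z : BinStr => Hi (rel z) v) := BP.ex fun u => bp_atom u v

theorem bp_dx (u v : ℕ) : BP (fun z : BinStr => Dx (rel z) u v) :=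
  ((bp_hi u).not.and ((bp_hi v).and (bp_atom u v).not)).or
    ((bp_hi u).and ((bp_hi v).not.and (bp_atom v u).not))

theorem measurable_dx : Measurable dx := by
  refine measurable_pi_iff.2 fun u => measurable_pi_iff.2 fun v => ?_
  refine measurable_to_bool ?_
  have : (fun y : BinStr => dx y u v) ⁻¹' {true} = {y | Dx (rel y) u v} := by
    ext y
    simp [dx]
  rw [this]
  exact bp_dx u v

theorem dx_equi {σ : Equiv.Perm ℕ} {y z : BinStr} (h : ∀ m n, z (σ m) (σ n) = y m n) (m n : ℕ) :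
    dx z (σ m) (σ n) = dx y m n := by
  have hr := rel_equi h
  rw [Bool.eq_iff_iff]
  show rel (dx z) _ _ ↔ rel (dx y) _ _
  rw [rel_dx, rel_dx]
  unfold Dx
  rw [hi_map σ hr m, hi_map σ hr n, hr m n, hr n m]

theorem dx_iso {y z : BinStr} (h : BIso y z) : BIso (dx y) (dx z) := by
  obtain ⟨σ, h⟩ := h
  exact ⟨σ, dx_equi h⟩

/-- the class -/
def WC (z : BinStr) : Prop :=
  WS 0 (dx z) ∧ (∀ v, Hi (rel z) v ↔ Big (rel (dx z)) v) ∧ ∀ u v, rel z u v → ¬ Hi (rel z) u

theorem WC_iff {z : BinStr} (h : WC z) (u v : ℕ) :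
    rel z u v ↔ ¬ Big (rel (dx z)) u ∧ Big (rel (dx z)) v ∧ ¬ rel (dx z) u v := by
  rw [← h.2.1, ← h.2.1, rel_dx]
  unfold Dx
  constructor
  · intro h1
    refine ⟨h.2.2 u v h1, ⟨u, h1⟩, ?_⟩
    rintro (h2 | h2)
    · exact h2.2.2 h1
    · exact h.2.2 u v h1 h2.1
  · rintro ⟨h1, h2, h3⟩
    by_contra h4
    exact h3 (Or.inl ⟨h1, h2, h4⟩)

theorem WC_class {z : BinStr} (h : WC z) : Cob z := nonincidence h.1.1 (WC_iff h)

theorem faithful_cob : Faithful BIso Cob := by
  classical
  refine faithful_interp (faithful_sub 0) (W := WC) (δ := dx) (fun _ _ h => h.symm) ?_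
    measurable_dx ?_ ?_ ?_ (fun y hy => WC_class hy)
  · have h1 : BP (fun z : BinStr => WS 0 (dx z)) := measurable_dx (bp_WS 0)
    have hr : ∀ u v, BP (fun z : BinStr => rel (dx z) u v) := fun u v =>
      measurable_dx (bp_atom u v)
    have h2 : ∀ u, BP (fun z : BinStr => Big (rel (dx z)) u) := fun u =>
      bp_big (r := fun u v z => rel (dx z) u v) hr u
    have h3 : BP (fun z : BinStr => ∀ v, Hi (rel z) v ↔ Big (rel (dx z)) v) :=
      BP.all fun v => (bp_hi v).iff (h2 v)
    have h4 : BP (fun z : BinStr => ∀ u v, rel z u v → ¬ Hi (rel z) u) :=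
      BP.all fun u => BP.all fun v => (bp_atom u v).imp (bp_hi u).not
    exact BP.and (p := fun z => WS 0 (dx z)) h1 (h3.and h4)
  · rintro y z h ⟨h1, h2, h3⟩
    refine ⟨WS_inv (dx_iso h) h1, ?_⟩
    obtain ⟨σ, h⟩ := h
    have hr := rel_equi h
    have hr' := rel_equi (dx_equi h)
    constructor
    · intro v
      obtain ⟨v, rfl⟩ := σ.surjective v
      rw [← hi_map σ hr, ← big_map σ hr']
      exact h2 v
    · intro u v huv
      obtain ⟨u, rfl⟩ := σ.surjective u
      obtain ⟨v, rfl⟩ := σ.surjective v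
      rw [← hr] at huv
      rw [← hi_map σ hr]
      exact h3 u v huv
  · intro y z hy hz
    refine ⟨dx_iso, ?_⟩
    rintro ⟨σ, h⟩
    have hr := rel_equi h
    refine ⟨σ, fun m n => ?_⟩
    rw [Bool.eq_iff_iff]
    show rel z _ _ ↔ rel y _ _
    rw [WC_iff hy, WC_iff hz, ← big_map σ hr, ← big_map σ hr, ← hr]
  · intro x hx
    have hs : ∀ u v, rel x u v → rel x v u := hx.1.symm
    obtain ⟨u0, -, hu0⟩ := hx.2.2 0
    have hu0' : ¬ Big (rel x) u0 := by
      rintro ⟨a, -, -, -, -, -, h, -⟩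
      exact hu0 a h
    let z : BinStr := fun u v => decide (¬ Big (rel x) u ∧ Big (rel x) v ∧ ¬ rel x u v)
    have hz : ∀ u v, rel z u v ↔ ¬ Big (rel x) u ∧ Big (rel x) v ∧ ¬ rel x u v := fun u v => by
      simp [z, rel]
    have hH : ∀ v, Hi (rel z) v ↔ Big (rel x) v := by
      intro v
      constructor
      · rintro ⟨u, hu⟩
        exact ((hz _ _).1 hu).2.1
      · intro hv
        exact ⟨u0, (hz _ _).2 ⟨hu0', hv, hu0 v⟩⟩
    have e : dx z = x := by
      funext u v
      rw [Bool.eq_iff_iff]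
      show rel (dx z) u v ↔ rel x u v
      rw [rel_dx]
      unfold Dx
      rw [hH, hH, hz, hz]
      constructor
      · rintro (⟨h1, h2, h3⟩ | ⟨h1, h2, h3⟩)
        · by_contra h4
          exact h3 ⟨h1, h2, h4⟩
        · by_contra h4
          exact h3 ⟨h2, h1, fun h5 => h4 (hs _ _ h5)⟩
      · intro h1
        by_cases hu : Big (rel x) u
        · have hv : ¬ Big (rel x) v := fun hv => hx.1.indep u v hu hv h1
          exact Or.inr ⟨hu, hv, fun h2 => h2.2.2 (hs _ _ h1)⟩
        · exact Or.inl ⟨hu, sub_cov hx.1 hu h1, fun h2 => h2.2.2 h1⟩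
    refine ⟨z, ⟨by rw [e]; exact hx, fun v => by rw [e]; exact hH v, fun u v huv => ?_⟩, ?_⟩
    · rw [hH]
      exact ((hz _ _).1 huv).1
    · rw [e]
      exact ⟨Equiv.refl _, fun _ _ => rfl⟩

end Pool.Agent.TH686.FS
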