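import Pool.Agent.TH686.FS.Comb

set_option autoImplicit false

/-! Partial orders on `ℕ` without suborder N have nontrivial modules. -/

namespace Pool.Agent.TH686.FS

/-- comparability -/
def Q (lt : ℕ → ℕ → Prop) (u v : ℕ) : Prop := lt u v ∨ lt v u

/-- modules -/
def Md (lt : ℕ → ℕ → Prop) (X : ℕ → Prop) : Prop :=
  ∀ u u' w, X u → X u' → ¬ X w → (lt u w ↔ lt u' w) ∧ (lt w u ↔ lt w u')

/-- no suborder N -/
def NF (lt : ℕ → ℕ → Prop) : Prop :=
  ∀ a b c d, lt a b → lt c b → lt c d → ¬ Q lt a c → ¬ Q lt b d → ¬ Q lt a d → False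

variable {lt : ℕ → ℕ → Prop}

theorem Q.sy {u v : ℕ} (h : Q lt u v) : Q lt v u := h.symm

theorem p4 (hp : PO lt) (h : NF lt) (a b c d : ℕ) (h1 : Q lt a b) (h2 : Q lt b c) (h3 : Q lt c d)
    (h4 : ¬ Q lt a c) (h5 : ¬ Q lt b d) (h6 : ¬ Q lt a d) : False := by
  rcases h1 with h1 | h1
  · rcases h2 with h2 | h2
    · exact h4 (Or.inl (hp.trans _ _ _ h1 h2))
    · rcases h3 with h3 | h3
      · exact h a b c d h1 h2 h3 h4 h5 h6
      · exact h5 (Or.inr (hp.trans _ _ _ h3 h2))
  · rcases h2 with h2 | h2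
    · rcases h3 with h3 | h3
      · exact h5 (Or.inl (hp.trans _ _ _ h2 h3))
      · exact h d c b a h3 h2 h1 (fun h => h5 h.sy) (fun h => h4 h.sy) (fun h => h6 h.sy)
    · exact h4 (Or.inr (hp.trans _ _ _ h2 h1))

theorem stepA (hp : PO lt) (hq : NF lt)
    (hm : ∀ X, Md lt X → (∃ u u', X u ∧ X u' ∧ u ≠ u') → ∀ w, X w) (v c c' : ℕ)
    (h1 : c ≠ v) (h2 : ¬ Q lt c v) (h3 : c' ≠ v) (h4 : ¬ Q lt c' v) : ¬ Q lt c c' := by
  intro hcc
  let r : ℕ → ℕ → Prop := fun x y => Q lt x y ∧ ¬ Q lt y v ∧ y ≠ v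
  let C : ℕ → Prop := fun u => Relation.ReflTransGen r c u
  have hC : ∀ u, C u → ¬ Q lt u v ∧ u ≠ v := by
    intro u hu
    rcases Relation.ReflTransGen.cases_tail hu with h | ⟨w, -, h⟩
    · rw [h]
      exact ⟨h2, h1⟩
    · exact h.2
  have out : ∀ x w, C x → ¬ C w → Q lt x w → Q lt w v := by
    intro x w hx hw hxw
    by_contra h
    by_cases he : w = v
    · subst he
      exact (hC x hx).1 hxw
    · exact hw (Relation.ReflTransGen.tail hx ⟨hxw, h, he⟩)
  have step : ∀ x y w, C x → C y → Q lt x y → ¬ C w → Q lt x w → Q lt y w := by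
    intro x y w hx hy hxy hw hxw
    by_contra hyw
    have hwv := out x w hx hw hxw
    exact p4 hp hq v w x y hwv.sy hxw.sy hxy (fun h => (hC x hx).1 h.sy)
      (fun h => hyw h.sy) (fun h => (hC y hy).1 h.sy)
  have key : ∀ u, C u → ∀ w, ¬ C w → (Q lt c w ↔ Q lt u w) := by
    intro u hu w hw
    induction hu with
    | refl => exact Iff.rfl
    | @tail x y hx hxy ih =>
      have hy : C y := Relation.ReflTransGen.tail hx hxy
      exact ih.trans ⟨step x y w hx hy hxy.1 hw, step y x w hy hx hxy.1.sy hw⟩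
  have dir : ∀ x w, C x → ¬ C w → ((lt x w ↔ Q lt c w ∧ lt v w) ∧ (lt w x ↔ Q lt c w ∧ lt w v)) := by
    intro x w hx hw
    have hk := key x hx w hw
    refine ⟨⟨fun h => ?_, fun h => ?_⟩, fun h => ?_, fun h => ?_⟩
    · refine ⟨hk.2 (Or.inl h), ?_⟩
      rcases out x w hx hw (Or.inl h) with h' | h'
      · exact absurd (Or.inl (hp.trans _ _ _ h h')) (hC x hx).1
      · exact h'
    · rcases hk.1 h.1 with h' | h'
      · exact h'
      · exact absurd (Or.inr (hp.trans _ _ _ h.2 h')) (hC x hx).1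
    · refine ⟨hk.2 (Or.inr h), ?_⟩
      rcases out x w hx hw (Or.inr h) with h' | h'
      · exact h'
      · exact absurd (Or.inr (hp.trans _ _ _ h' h)) (hC x hx).1
    · rcases hk.1 h.1 with h' | h'
      · exact absurd (Or.inl (hp.trans _ _ _ h' h.2)) (hC x hx).1
      · exact h'
  have hmod : Md lt C := fun u u' w hu hu' hw =>
    ⟨(dir u w hu hw).1.trans (dir u' w hu' hw).1.symm,
      (dir u w hu hw).2.trans (dir u' w hu' hw).2.symm⟩
  have hne : c ≠ c' := by
    rintro rfl
    rcases hcc with h | h <;> exact hp.irrefl _ h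
  have := hm C hmod ⟨c, c', Relation.ReflTransGen.refl,
    Relation.ReflTransGen.single ⟨hcc, h4, h3⟩, hne⟩ v
  exact (hC v this).2 rfl

theorem stepB (hp : PO lt) (hq : NF lt)
    (hm : ∀ X, Md lt X → (∃ u u', X u ∧ X u' ∧ u ≠ u') → ∀ w, X w) (v x y : ℕ)
    (h1 : Q lt x v) (h2 : Q lt y v) (h3 : x ≠ y) : Q lt x y := by
  by_contra hxy
  have qi : ∀ u, ¬ Q lt u u := fun u h => by
    rcases h with h | h <;> exact hp.irrefl _ h
  let r : ℕ → ℕ → Prop := fun s t => s ≠ t ∧ ¬ Q lt s t ∧ Q lt t v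
  let D : ℕ → Prop := fun u => Relation.ReflTransGen r x u
  have hD : ∀ u, D u → Q lt u v := by
    intro u hu
    rcases Relation.ReflTransGen.cases_tail hu with h | ⟨w, -, h⟩
    · rw [h]
      exact h1
    · exact h.2.2
  have step : ∀ s t w, D s → D t → ¬ Q lt s t → ¬ D w → Q lt t w → Q lt s w := by
    intro s t w hs ht hst hw htw
    by_contra hsw
    have hne : s ≠ w := fun e => hw (e ▸ hs)
    have hwv : ¬ Q lt w v := fun h => hw (Relation.ReflTransGen.tail hs ⟨hne, hsw, h⟩)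
    exact p4 hp hq w t v s htw.sy (hD t ht) (hD s hs).sy hwv (fun h => hst h.sy)
      (fun h => hsw h.sy)
  have key : ∀ u, D u → ∀ w, ¬ D w → (lt x w ↔ lt u w) ∧ (lt w x ↔ lt w u) := by
    intro u hu w hw
    induction hu with
    | refl => exact ⟨Iff.rfl, Iff.rfl⟩
    | @tail s t hs hst ih =>
      have ht : D t := Relation.ReflTransGen.tail hs hst
      have a1 : ∀ s t, D s → D t → ¬ Q lt s t → lt s w → lt t w := by
        intro s t hs ht hst h
        rcases step t s w ht hs (fun h => hst h.sy) hw (Or.inl h) with h' | h'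
        · exact h'
        · exact absurd (Or.inl (hp.trans _ _ _ h h')) hst
      have a2 : ∀ s t, D s → D t → ¬ Q lt s t → lt w s → lt w t := by
        intro s t hs ht hst h
        rcases step t s w ht hs (fun h => hst h.sy) hw (Or.inr h) with h' | h'
        · exact absurd (Or.inr (hp.trans _ _ _ h' h)) hst
        · exact h'
      have n1 : ¬ Q lt s t := hst.2.1
      have n2 : ¬ Q lt t s := fun h => n1 h.sy
      exact ⟨ih.1.trans ⟨a1 s t hs ht n1, a1 t s ht hs n2⟩,
        ih.2.trans ⟨a2 s t hs ht n1, a2 t s ht hs n2⟩⟩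
  have hmod : Md lt D := fun u u' w hu hu' hw =>
    ⟨(key u hu w hw).1.symm.trans (key u' hu' w hw).1,
      (key u hu w hw).2.symm.trans (key u' hu' w hw).2⟩
  have := hm D hmod ⟨x, y, Relation.ReflTransGen.refl,
    Relation.ReflTransGen.single ⟨h3, hxy, h2⟩, h3⟩ v
  exact qi v (hD v this)

/-- partial orders on `ℕ` without suborder N are not prime -/
theorem not_prime (hp : PO lt) (hq : NF lt) :
    ∃ X, Md lt X ∧ (∃ u u', X u ∧ X u' ∧ u ≠ u') ∧ ∃ w, ¬ X w := by
  by_contra hcon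
  have hm : ∀ X, Md lt X → (∃ u u', X u ∧ X u' ∧ u ≠ u') → ∀ w, X w := by
    intro X h1 h2
    by_contra h3
    push Not at h3
    exact hcon ⟨X, h1, h2, h3⟩
  have a1 := stepA hp hq hm
  have b2 := stepB hp hq hm
  by_cases hE : ∃ c c', Q lt c c'
  · obtain ⟨c, c', hcc⟩ := hE
    have all : ∀ v, v ≠ c → Q lt v c := by
      intro v hv
      by_contra h
      have h' : ¬ Q lt c v := fun k => h k.sy
      have hv' : v ≠ c' := by
        rintro rfl
        exact h' hcc
      by_cases h5 : Q lt c' v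
      · exact h' (b2 c' c v hcc h5.sy hv.symm)
      · exact a1 v c c' hv.symm h' hv'.symm h5 hcc
    have tot : ∀ u v, u ≠ v → Q lt u v := by
      intro u v huv
      by_cases h1 : u = c
      · rw [h1]
        exact (all v (fun e => huv (h1.trans e.symm))).sy
      · by_cases h2 : v = c
        · rw [h2]
          exact all u h1
        · exact b2 c u v (all u h1) (all v h2) huv
    -- three elements in increasing order
    have three : ∃ x y z, lt x y ∧ lt y z := by
      rcases tot 0 1 (by norm_num) with h | h <;> rcases tot 1 2 (by norm_num) with h' | h' <;>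
        rcases tot 0 2 (by norm_num) with h'' | h''
      · exact ⟨0, 1, 2, h, h'⟩
      · exact ⟨0, 1, 2, h, h'⟩
      · exact ⟨0, 2, 1, h'', h'⟩
      · exact ⟨2, 0, 1, h'', h⟩
      · exact ⟨1, 0, 2, h, h''⟩
      · exact ⟨1, 2, 0, h', h''⟩
      · exact ⟨0, 2, 1, h'', h'⟩
      · exact ⟨2, 1, 0, h', h⟩
    obtain ⟨x, y, z, hxy, hyz⟩ := three
    have := hm (fun u => u = y ∨ lt u y) (by
      have k1 : ∀ u w, (u = y ∨ lt u y) → ¬ (w = y ∨ lt w y) → lt u w := by
        intro u w hu hw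
        push Not at hw
        have : lt y w := by
          rcases tot y w hw.1.symm with h | h
          · exact h
          · exact absurd h hw.2
        rcases hu with rfl | hu
        · exact this
        · exact hp.trans _ _ _ hu this
      intro u u' w hu hu' hw
      have e1 := k1 u w hu hw
      have e2 := k1 u' w hu' hw
      exact ⟨iff_of_true e1 e2, iff_of_false (fun h => hp.irrefl _ (hp.trans _ _ _ e1 h))
        (fun h => hp.irrefl _ (hp.trans _ _ _ e2 h))⟩)
      ⟨x, y, Or.inr hxy, Or.inl rfl, fun e => hp.irrefl y (by rw [e] at hxy; exact hxy)⟩ z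
    rcases this with h | h
    · rw [h] at hyz
      exact hp.irrefl _ hyz
    · exact hp.irrefl _ (hp.trans _ _ _ hyz h)
  · have hno : ∀ u v, ¬ lt u v := fun u v h => hE ⟨u, v, Or.inl h⟩
    have := hm (fun u => u = 0 ∨ u = 1) (fun u u' w _ _ _ =>
      ⟨iff_of_false (hno _ _) (hno _ _), iff_of_false (hno _ _) (hno _ _)⟩)
      ⟨0, 1, Or.inl rfl, Or.inr rfl, by norm_num⟩ 2
    simp at this

end Pool.Agent.TH686.FS
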