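import Pool.Agent.Results.MP_bb6533_lc.ComparabilityGraphs
import Pool.Agent.TH686.FS.Prime
import Pool.Agent.TH686.FS.Cls

set_option autoImplicit false

/-! Vaught's conjecture for partial orders without suborder N, and the dichotomy. -/

namespace Pool.Agent.TH686.FS

open Set Pool.Agent.W889.VC Pool.Agent.W889.SD
open Pool.Agent.Results.MP_bb6533_lc

/-- partial orders without suborder `r` -/
structure Fr {V : Type} (r : V → V → Prop) (y : BinStr) : Prop where
  irrefl : ∀ u, y u u = false
  trans : ∀ u v w, y u v = true → y v w = true → y u w = true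
  free : ¬ ∃ f : V → ℕ, Function.Injective f ∧ ∀ u v, y (f u) (f v) = true ↔ r u v

variable {V : Type} {r : V → V → Prop} {y : BinStr}

theorem Fr.po (hy : Fr r y) : PO (rel y) :=
  ⟨fun u h => by
    have h' : y u u = true := h
    rw [hy.irrefl] at h'
    exact absurd h' (by decide), hy.trans⟩

theorem nf_of (h : EmbN r) (hy : Fr r y) : NF (rel y) := by
  intro a b c d h1 h2 h3 h4 h5 h6
  obtain ⟨f, hf, hr⟩ := h
  have hp := hy.po
  have n1 : ¬ rel y b a := fun h => hp.irrefl _ (hp.trans _ _ _ h1 h)
  have n2 : ¬ rel y b c := fun h => hp.irrefl _ (hp.trans _ _ _ h2 h)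
  have n3 : ¬ rel y d c := fun h => hp.irrefl _ (hp.trans _ _ _ h3 h)
  have n4 : ¬ rel y a c := fun h => h4 (Or.inl h)
  have n5 : ¬ rel y c a := fun h => h4 (Or.inr h)
  have n6 : ¬ rel y b d := fun h => h5 (Or.inl h)
  have n7 : ¬ rel y d b := fun h => h5 (Or.inr h)
  have n8 : ¬ rel y a d := fun h => h6 (Or.inl h)
  have n9 : ¬ rel y d a := fun h => h6 (Or.inr h)
  have e1 : a ≠ b := fun e => hp.irrefl b (by rw [e] at h1; exact h1)
  have e2 : c ≠ b := fun e => hp.irrefl b (by rw [e] at h2; exact h2)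
  have e3 : c ≠ d := fun e => hp.irrefl d (by rw [e] at h3; exact h3)
  have e4 : a ≠ c := fun e => n8 (by rw [e]; exact h3)
  have e5 : b ≠ d := fun e => n8 (by rw [← e]; exact h1)
  have e6 : a ≠ d := fun e => n5 (by rw [e]; exact h3)
  let g : Fin 4 → ℕ := ![a, b, c, d]
  have hg : Function.Injective g := by
    intro i j hij
    fin_cases i <;> fin_cases j <;>
      first
        | rfl
        | exact absurd hij e1
        | exact absurd hij e2
        | exact absurd hij e3
        | exact absurd hij e4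
        | exact absurd hij e5
        | exact absurd hij e6
        | exact absurd hij.symm e1
        | exact absurd hij.symm e2
        | exact absurd hij.symm e3
        | exact absurd hij.symm e4
        | exact absurd hij.symm e5
        | exact absurd hij.symm e6
  have hi := hp.irrefl
  have ht : ∀ i j : Fin 4, rel y (g i) (g j) ↔ NN i j := by
    intro i j
    fin_cases i <;> fin_cases j
    · exact iff_of_false (hi _) (by decide)
    · exact iff_of_true h1 (by decide)
    · exact iff_of_false n4 (by decide)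
    · exact iff_of_false n8 (by decide)
    · exact iff_of_false n1 (by decide)
    · exact iff_of_false (hi _) (by decide)
    · exact iff_of_false n2 (by decide)
    · exact iff_of_false n6 (by decide)
    · exact iff_of_false n5 (by decide)
    · exact iff_of_true h2 (by decide)
    · exact iff_of_false (hi _) (by decide)
    · exact iff_of_true h3 (by decide)
    · exact iff_of_false n9 (by decide)
    · exact iff_of_false n7 (by decide)
    · exact iff_of_false n3 (by decide)
    · exact iff_of_false (hi _) (by decide)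
  exact hy.free ⟨fun v => g (f v), fun u v huv => hf (hg huv), fun u v =>
    (ht _ _).trans (hr u v).symm⟩

/-- no infinite indecomposable part -/
theorem pover (h : NF (rel y)) (hp : PO (rel y)) :
    ComparabilityGraphs.PosetOver (fun _ => False) (fun _ => y) := by
  refine ⟨⟨fun u => ?_, fun u v w h1 h2 => hp.trans u v w h1 h2⟩, fun e he hP => ?_⟩
  · have := hp.irrefl u
    unfold rel at this
    rwa [Bool.not_eq_true] at this
  · exfalso
    have hp' : PO (fun u v => rel y (e u) (e v)) :=
      ⟨fun u => hp.irrefl _, fun u v w => hp.trans _ _ _⟩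
    have hn' : NF (fun u v => rel y (e u) (e v)) := fun a b c d => h (e a) (e b) (e c) (e d)
    obtain ⟨X, hX, ⟨u, u', hu, hu', hne⟩, w, hw⟩ := not_prime hp' hn'
    rcases hP {v | X v} (fun i u hu v hv w hw => by
      obtain ⟨h1, h2⟩ := hX u v w hu hv hw
      refine ⟨?_, ?_⟩
      · rw [Bool.eq_iff_iff]
        exact h1
      · rw [Bool.eq_iff_iff]
        exact h2) with h1 | h1
    · exact hne (h1 hu hu')
    · exact hw (by
        have : w ∈ {v | X v} := by rw [h1]; exact Set.mem_univ _
        exact this)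

theorem pos (h : EmbN r) : VCof True BIso (Fr r) := by
  intro B hB hinv hBK
  have hv := (ComparabilityGraphs.result.1 (fun _ => False) (by
    intro B' _ _ hF
    left
    refine ⟨fun _ => (fun _ _ _ => false, fun _ _ => false), fun x hx => ?_⟩
    obtain ⟨G, hG, -⟩ := hF x hx
    exact hG.elim)).1
  let dn : ComparabilityGraphs.Structures 1 → BinStr := fun x => x.1 0
  have hm : Measurable dn := (measurable_pi_apply (0 : Fin 1)).comp measurable_fst
  have hc : Continuous dn := (continuous_apply (0 : Fin 1)).comp continuous_fst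
  have hm2 : ∀ i u, Measurable (fun x : ComparabilityGraphs.Structures 1 => x.2 i u) := fun i u =>
    (measurable_pi_apply u).comp ((measurable_pi_apply i).comp measurable_snd)
  let up : BinStr → ComparabilityGraphs.Structures 1 := fun y => (fun _ => y, fun _ _ => false)
  have hupdn : ∀ x : ComparabilityGraphs.Structures 1, (∀ i u, x.2 i u = false) → up (dn x) = x := by
    intro x hx
    refine Prod.ext ?_ ?_
    · funext i
      rw [Subsingleton.elim i 0]
    · funext i u
      exact (hx i u).symm
  have hiso : ∀ x x' : ComparabilityGraphs.Structures 1, ComparabilityGraphs.Isomorphic x x' →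
      BIso (dn x) (dn x') := by
    rintro x x' ⟨σ, h1, -⟩
    exact ⟨σ, fun m n => h1 0 m n⟩
  have hiso' : ∀ y z : BinStr, BIso y z → ComparabilityGraphs.Isomorphic (up y) (up z) := by
    rintro y z ⟨σ, h1⟩
    exact ⟨σ, fun _ m n => h1 m n, fun _ _ => rfl⟩
  rcases hv {x | dn x ∈ B ∧ ∀ i u, x.2 i u = false} (by
      have h7 : {x : ComparabilityGraphs.Structures 1 | ∀ i u, x.2 i u = false} =
          ⋂ i, ⋂ u, (fun x : ComparabilityGraphs.Structures 1 => x.2 i u) ⁻¹' {false} := by
        ext x
        simp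
      have h8 : MeasurableSet {x : ComparabilityGraphs.Structures 1 | ∀ i u, x.2 i u = false} := by
        rw [h7]
        exact MeasurableSet.iInter fun i => MeasurableSet.iInter fun u =>
          hm2 i u (measurableSet_singleton false)
      exact MeasurableSet.inter (hm hB) h8)
    (by
      rintro x x' h ⟨h1, h2⟩
      refine ⟨(hinv _ _ (hiso x x' h)).1 h1, fun i u => ?_⟩
      obtain ⟨σ, -, h3⟩ := h
      obtain ⟨u, rfl⟩ := σ.surjective u
      rw [h3]
      exact h2 i u)
    (by
      rintro x ⟨h1, h2⟩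
      have h3 := hBK _ h1
      have h4 := pover (nf_of h h3) h3.po
      have h5 : x.1 = fun _ => dn x := by
        funext i
        rw [Subsingleton.elim i 0]
      show ComparabilityGraphs.PosetOver (fun _ => False) x.1
      rw [h5]
      exact h4) with ⟨f, hf⟩ | ⟨g, hg, hgB, hgi⟩
  · left
    refine ⟨fun n => dn (f n), fun y hy => ?_⟩
    obtain ⟨n, hn⟩ := hf (up y) ⟨hy, fun _ _ => rfl⟩
    exact ⟨n, hiso _ _ hn⟩
  · right
    refine ⟨fun c => dn (g c), fun _ => hc.comp hg, fun c => (hgB c).1, fun c d hcd => ?_⟩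
    refine hgi c d ?_
    rw [← hupdn _ (hgB c).2, ← hupdn _ (hgB d).2]
    exact hiso' _ _ hcd

theorem fr_of (hy : POB y)
    (h : ¬ ∃ f : V → ℕ, Function.Injective f ∧ ∀ u v, rel y (f u) (f v) ↔ r u v) : Fr r y :=
  ⟨fun u => by
    have := hy.irrefl u
    unfold rel at this
    rwa [Bool.not_eq_true] at this, hy.trans, h⟩

theorem neg (hr : PO r) (h : ¬ Exc r) : Faithful BIso (Fr r) := by
  by_cases h1 : O1 r
  · refine faithful_two.mono fun y hy => fr_of hy.1 ?_
    rintro ⟨f, -, hf⟩
    obtain ⟨a, b, c, k1, k2⟩ := h1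
    exact hy.2.1 _ _ _ ((hf a b).2 k1) ((hf b c).2 k2)
  by_cases h2 : O2 r
  · refine faithful_two.mono fun y hy => fr_of hy.1 ?_
    rintro ⟨f, hi, hf⟩
    obtain ⟨a, b, c, d, k1, k2, k3, k4, k5, k6⟩ := h2
    rcases hy.2.2 _ _ _ _ ((hf a b).2 k1) ((hf a c).2 k2) ((hf a d).2 k3) with e | e | e
    · exact k4 (hi e)
    · exact k5 (hi e)
    · exact k6 (hi e)
  by_cases h3 : O3 r
  · refine (faithful_dual faithful_two).mono fun y hy => fr_of ?_ ?_
    · exact ⟨fun u => hy.1.irrefl u, fun u v w k1 k2 => hy.1.trans w v u k2 k1⟩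
    · rintro ⟨f, hi, hf⟩
      obtain ⟨a, b, c, d, k1, k2, k3, k4, k5, k6⟩ := h3
      rcases hy.2.2 _ _ _ _ ((hf b a).2 k1) ((hf c a).2 k2) ((hf d a).2 k3) with e | e | e
      · exact k4 (hi e)
      · exact k5 (hi e)
      · exact k6 (hi e)
  have hpo : ∀ y, CAI y → POB y := by
    intro y hy
    have hir : ∀ u, ¬ rel y u u := fun u h => by
      unfold rel at h
      rw [hy.1.irrefl] at h
      exact absurd h (by decide)
    refine ⟨hir, fun u v w k1 k2 => ?_⟩
    rcases hy.1.two u v v w k1 k2 with h | h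
    · exact h
    · exact absurd h (hir v)
  by_cases h4 : O4 r
  · refine target_CAI.faithful.mono fun y hy => fr_of (hpo y hy) ?_
    rintro ⟨f, hi, hf⟩
    obtain ⟨a, b, c, d, k1, k2, k3, k4⟩ := h4
    rcases hy.1.two _ _ _ _ ((hf a b).2 k1) ((hf c d).2 k2) with e | e
    · exact k3 ((hf _ _).1 e)
    · exact k4 ((hf _ _).1 e)
  by_cases h5 : O5 r
  · refine target_CAI.faithful.mono fun y hy => fr_of (hpo y hy) ?_
    rintro ⟨f, hi, hf⟩
    obtain ⟨a, a', b, b', k1, k2, k3, k4, k5, k6⟩ := h5
    obtain ⟨-, A, hA, hA'⟩ := hy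
    have inc : ∀ u v, u ≠ v → ¬ r u v → ¬ r v u → ¬ A (f u) ∨ ¬ A (f v) := by
      intro u v huv n1 n2
      by_contra hcon
      push Not at hcon
      rcases hA _ _ hcon.1 hcon.2 (fun e => huv (hi e)) with e | e
      · exact n1 ((hf _ _).1 e)
      · exact n2 ((hf _ _).1 e)
    have i1 := inc a a' k1 (fun h => h1 ⟨a, a', b, h, k5⟩) (fun h => h1 ⟨a', a, b, h, k3⟩)
    have i2 := inc b b' k2 (fun h => h1 ⟨a, b, b', k3, h⟩) (fun h => h1 ⟨a, b', b, k4, h⟩)
    rcases i1 with i1 | i1 <;> rcases i2 with i2 | i2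
    · exact hA' _ _ i1 i2 ((hf _ _).2 k3)
    · exact hA' _ _ i1 i2 ((hf _ _).2 k4)
    · exact hA' _ _ i1 i2 ((hf _ _).2 k5)
    · exact hA' _ _ i1 i2 ((hf _ _).2 k6)
  · exact absurd (exc_of hr h1 h2 h3 h4 h5) h

end Pool.Agent.TH686.FS
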