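import Pool.Agent.TH686.FS.NFV
import Pool.Agent.TH686.FS.Cob

set_option autoImplicit false

/-! Completeness of the classes given by one forbidden suborder with at least six elements. -/

namespace Pool.Agent.TH686.FS

open Set Pool.Agent.W889.VC Pool.Agent.W889.SD

variable {V : Type} {r : V → V → Prop} {y : BinStr}

theorem neg6 (hr : PO r) (h : ¬ Exc6 r) : Faithful BIso (Fr r) := by
  by_cases hE : Exc r
  swap
  · exact neg hr hE
  by_cases h6 : O6 r
  · refine faithful_cob.mono fun y hy => fr_of hy.1 ?_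
    rintro ⟨f, hi, hf⟩
    exact hy.2.2.1 (h6.map hi hf)
  by_cases h7 : O7 r
  · refine (faithful_dual faithful_cob).mono fun y hy => fr_of ?_ ?_
    · exact ⟨fun u => hy.1.irrefl u, fun u v w k1 k2 => hy.1.trans w v u k2 k1⟩
    · rintro ⟨f, hi, hf⟩
      exact hy.2.2.1 (O6.map (r := fun u v => r v u) hi (fun u v => hf v u) h7)
  by_cases h8 : O8 r
  · refine faithful_cob.mono fun y hy => fr_of hy.1 ?_
    rintro ⟨f, hi, hf⟩
    exact hy.2.2.2 (h8.map hi hf)
  · exact absurd (exc6_of hE h6 h7 h8) h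

end Pool.Agent.TH686.FS
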